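import Pool.Agent.X302.TR.Stm

set_option autoImplicit false

namespace Pool.Agent.X154.TR

open Filter Topology Pool.Agent.X302.TR

variable {n : ℕ}

/-- basis vector -/
def bs (i : Fin n) : V n := fun j => if i = j then 1 else 0

theorem T_eq (F : Cub n) (x y z : V n) :
    F.T x y z = ∑ i, ∑ j, ∑ k, x i * (y j * (z k * F.T (bs i) (bs j) (bs k))) := by
  have h1 : F.T x y z = ∑ i, x i * F.T (bs i) y z := by
    rw [LinearMap.pi_apply_eq_sum_univ F.T x]
    simp only [LinearMap.sum_apply, LinearMap.smul_apply, smul_eq_mul]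
    rfl
  rw [h1]
  refine Finset.sum_congr rfl fun i _ => ?_
  have h2 : F.T (bs i) y z = ∑ j, y j * F.T (bs i) (bs j) z := by
    rw [LinearMap.pi_apply_eq_sum_univ (F.T (bs i)) y]
    simp only [LinearMap.sum_apply, LinearMap.smul_apply, smul_eq_mul]
    rfl
  rw [h2, Finset.mul_sum]
  refine Finset.sum_congr rfl fun j _ => ?_
  have h3 : F.T (bs i) (bs j) z = ∑ k, z k * F.T (bs i) (bs j) (bs k) := by
    rw [LinearMap.pi_apply_eq_sum_univ (F.T (bs i) (bs j)) z]
    simp only [smul_eq_mul]
    rfl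
  rw [h3, Finset.mul_sum, Finset.mul_sum]

theorem Q_eq (F : Cub n) (x y : V n) :
    F.Q x y = ∑ i, ∑ j, x i * (y j * F.Q (bs i) (bs j)) := by
  have h1 : F.Q x y = ∑ i, x i * F.Q (bs i) y := by
    rw [LinearMap.pi_apply_eq_sum_univ F.Q x]
    simp only [LinearMap.sum_apply, LinearMap.smul_apply, smul_eq_mul]
    rfl
  rw [h1]
  refine Finset.sum_congr rfl fun i _ => ?_
  have h2 : F.Q (bs i) y = ∑ j, y j * F.Q (bs i) (bs j) := by
    rw [LinearMap.pi_apply_eq_sum_univ (F.Q (bs i)) y]
    simp only [smul_eq_mul]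
    rfl
  rw [h2, Finset.mul_sum]

theorem T_cont (F : Cub n) : Continuous fun p : V n × V n × V n => F.T p.1 p.2.1 p.2.2 := by
  have : (fun p : V n × V n × V n => F.T p.1 p.2.1 p.2.2) = fun p =>
      ∑ i, ∑ j, ∑ k, p.1 i * (p.2.1 j * (p.2.2 k * F.T (bs i) (bs j) (bs k))) := by
    funext p; exact T_eq F _ _ _
  rw [this]
  fun_prop

theorem Q_cont (F : Cub n) : Continuous fun p : V n × V n => F.Q p.1 p.2 := by
  have : (fun p : V n × V n => F.Q p.1 p.2) = fun p =>
      ∑ i, ∑ j, p.1 i * (p.2 j * F.Q (bs i) (bs j)) := by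
    funext p; exact Q_eq F _ _
  rw [this]
  fun_prop

theorem L_cont (F : Cub n) : Continuous fun p : V n => F.L p := F.L.continuous_of_finiteDimensional

theorem T3_cont (F : Cub n) {X : Type*} [TopologicalSpace X] {f g h : X → V n} (hf : Continuous f)
    (hg : Continuous g) (hh : Continuous h) : Continuous fun x => F.T (f x) (g x) (h x) :=
  (T_cont F).comp (hf.prodMk (hg.prodMk hh))

theorem Q2_cont (F : Cub n) {X : Type*} [TopologicalSpace X] {f g : X → V n} (hf : Continuous f)
    (hg : Continuous g) : Continuous fun x => F.Q (f x) (g x) :=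
  (Q_cont F).comp (hf.prodMk hg)

theorem val_cont (F : Cub n) : Continuous F.val := by
  unfold Cub.val
  exact (((T3_cont F continuous_id continuous_id continuous_id).add
    (Q2_cont F continuous_id continuous_id)).add (L_cont F)).add continuous_const

theorem B_cont (F : Cub n) (e : V n) : Continuous (F.B e) := by
  unfold Cub.B
  exact ((continuous_const.mul (T3_cont F continuous_const continuous_id continuous_id)).add
    (continuous_const.mul (Q2_cont F continuous_const continuous_id))).add continuous_const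

theorem val_expand (F : Cub n) (e s : V n) (l : ℝ) :
    F.val (l • e + s) = l ^ 3 * F.T e e e + l ^ 2 * F.A e s + l * F.B e s + F.val s := by
  unfold Cub.val Cub.A Cub.B
  simp only [map_add, map_smul, LinearMap.add_apply, LinearMap.smul_apply, smul_eq_mul]
  rw [F.T1 s e e, F.T2 e s e, F.T2 s s e, F.T1 s e s, F.Q1 s e]
  ring

theorem t_POS : S_POS := by
  intro n U F e lam s hT hlam hs
  set ψ : V n × ℝ → ℝ := fun p => F.T (e + p.1) (e + p.1) (e + p.1)
    + p.2 * F.Q (e + p.1) (e + p.1) + p.2 ^ 2 * F.L (e + p.1) + p.2 ^ 3 * F.c with hψ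
  have hc : Continuous fun p : V n × ℝ => e + p.1 := continuous_const.add continuous_fst
  have hψc : Continuous ψ := by
    refine (((T3_cont F hc hc hc).add (continuous_snd.mul (Q2_cont F hc hc))).add
      ((continuous_snd.pow 2).mul ((L_cont F).comp hc))).add ((continuous_snd.pow 3).mul
        continuous_const)
  have hpos := hlam.eventually_gt_atTop 0
  have hu : Tendsto (fun k => (lam k)⁻¹ • s k) U (𝓝 0) := by
    rw [tendsto_zero_iff_norm_tendsto_zero]
    refine hs.congr' ?_
    filter_upwards [hpos] with k hk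
    rw [norm_smul, norm_inv, Real.norm_eq_abs, abs_of_pos hk, div_eq_inv_mul]
  have ht : Tendsto (fun k => (lam k)⁻¹) U (𝓝 0) := tendsto_inv_atTop_zero.comp hlam
  have hlim : Tendsto (fun k => ψ ((lam k)⁻¹ • s k, (lam k)⁻¹)) U (𝓝 (ψ (0, 0))) :=
    (hψc.tendsto (0, 0)).comp (hu.prodMk_nhds ht)
  have h0 : ψ (0, 0) = F.T e e e := by simp [hψ]
  rw [h0] at hlim
  filter_upwards [hpos, hlim.eventually (lt_mem_nhds hT)] with k hk hk2
  have hne := hk.ne'
  have e1 : lam k • e + s k = lam k • (e + (lam k)⁻¹ • s k) := by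
    rw [smul_add, smul_smul, mul_inv_cancel₀ hne, one_smul]
  have e2 : F.val (lam k • e + s k) = lam k ^ 3 * ψ ((lam k)⁻¹ • s k, (lam k)⁻¹) := by
    rw [e1]
    simp only [hψ]
    unfold Cub.val
    set w := e + (lam k)⁻¹ • s k
    simp only [map_smul, LinearMap.smul_apply, smul_eq_mul]
    field_simp
  rw [e2]
  exact (mul_pos (pow_pos hk 3) hk2).le

theorem t_LAST : S_LAST := by
  intro n U F e y0 lam s hT hlam hs hA hA0 hB
  refine ⟨F.val y0 - 1, ?_⟩
  have hval : Tendsto (fun k => F.val (s k)) U (𝓝 (F.val y0)) :=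
    ((val_cont F).tendsto y0).comp hs
  have hBt : Tendsto (fun k => F.B e (s k)) U (𝓝 (F.B e y0)) :=
    ((B_cont F e).tendsto y0).comp hs
  have hpos := hlam.eventually_gt_atTop 0
  have hex : ∀ᶠ k in U, 0 < F.A e y0 → 0 ≤ lam k * F.A e y0 + F.B e (s k) := by
    by_cases h : 0 < F.A e y0
    · have h1 : Tendsto (fun k => lam k * F.A e y0) U atTop := hlam.atTop_mul_const h
      have h2 := h1.atTop_add hBt
      filter_upwards [h2.eventually_ge_atTop 0] with k hk _
      exact hk
    · exact Eventually.of_forall fun k hk => absurd hk h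
  filter_upwards [hA, hA0, hB, hpos, hex, hval.eventually (lt_mem_nhds (sub_one_lt (F.val y0)))]
    with k h1 h2 h3 h4 h5 h6
  rw [val_expand, hT]
  rcases h2.lt_or_eq with h | h
  · rw [h1] at h ⊢
    have h7 := mul_nonneg h4.le (h5 h)
    nlinarith
  · have h7 := mul_nonneg h4.le (h3 h.symm)
    rw [← h]
    nlinarith

end Pool.Agent.X154.TR
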